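import Pool.Agent.N801.CF.GsSmall

/-!
# The condition of Galkin and Shinder for cubic fourfolds in the divisors `C_8` and `C_18`
-/

set_option autoImplicit false

namespace Pool.Agent.Results.MP_4d0966_ag.HilbertSquaresPlanes

open Pool.Agent.Y95.Q Pool.Agent.N801.CF

/-- **The divisors `C_8` and `C_18`.** Let `X` be a smooth cubic fourfold.
1. Let `X` be in `C_8`, that is, let `X` contain a plane. Then `F(X)` is birational to `S^[2]` for a
K3 surface `S` if and only if `X` has an associated K3 surface, if and only if there is a Hodge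
class `v` such that `4` does not divide `disc v`.
2. Let `X` be in `C_18`. Then `F(X)` is birational to `S^[2]` for a K3 surface `S` if and only if `X`
has an associated K3 surface, if and only if there is a Hodge class `v` such that `disc v` is not
divisible by `3` or congruent to `6` modulo `18`. -/
theorem result (X : CubicFourfold) (H : H4 X) (hH : H.IsCohomology) :
    (InHassettDivisor H 8 → (HilbertSquare H ↔ H.HasK3) ∧
      (HilbertSquare H ↔ ∃ v, H.IsHodge v ∧ ¬ 4 ∣ H.disc v)) ∧
    (InHassettDivisor H 18 → (HilbertSquare H ↔ H.HasK3) ∧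
      (HilbertSquare H ↔ ∃ v, H.IsHodge v ∧ (¬ 3 ∣ H.disc v ∨ H.disc v % 18 = 6))) := by
  constructor
  · rintro ⟨P, hP, -, h8⟩
    exact eight_iff hH hP h8
  · rintro ⟨v0, hv0, -, h18⟩
    obtain ⟨h1, h2⟩ := eighteen_iff hH hv0 h18
    refine ⟨h1, h2.trans ⟨?_, ?_⟩⟩
    · rintro ⟨v, hv, hadm⟩
      exact ⟨v, hv, hadm.2.1 rfl⟩
    · rintro ⟨v, hv, h⟩
      exact ⟨v, hv, fun h => absurd h (by norm_num), fun _ => h, fun _ h => absurd h (by norm_num)⟩

end Pool.Agent.Results.MP_4d0966_ag.HilbertSquaresPlanes
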