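import Pool.Agent.N801.CF.GsMain

/-!
# The condition of Galkin and Shinder for cubic fourfolds of rank at least five
-/

set_option autoImplicit false

namespace Pool.Agent.Results.MP_4d0966_ag.HilbertSquaresRankFive

open Pool.Agent.Y95.Q Pool.Agent.N801.CF

/-- **The conditions of Galkin and Shinder and of Hassett and Kuznetsov agree in rank five.** Let
`X` be a smooth cubic fourfold such that the group of Hodge classes in `H^4(X, ℤ)` has rank at least
`5`, or has rank `4` and contains a class `v` with `disc v = 2 a ^ 2`, `a ≠ 0`. Then the variety of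
lines `F(X)` is birational to `S^[2]` for a K3 surface `S` if and only if `X` has an associated K3
surface. -/
theorem result (X : CubicFourfold) (H : H4 X) (hH : H.IsCohomology)
    (hr : 5 ≤ H.rank ∨ (4 ≤ H.rank ∧ ∃ (v : Fin 23 → ℤ) (a : ℤ),
      H.IsHodge v ∧ a ≠ 0 ∧ H.disc v = 2 * a ^ 2)) : HilbertSquare H ↔ H.HasK3 :=
  hilbertSquare_iff hH hr

end Pool.Agent.Results.MP_4d0966_ag.HilbertSquaresRankFive
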