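import Pool.Agent.N801.CF.Rk3Main

/-!
# The condition of Galkin and Shinder for cubic fourfolds of rank three
-/

set_option autoImplicit false

namespace Pool.Agent.Results.MP_4d0966_ag.HilbertSquaresRankThree

open Pool.Agent.Y95.Q Pool.Agent.N801.CF

/-- **The conditions of Galkin and Shinder and of Hassett and Kuznetsov in rank three.** Let `X` be
a smooth cubic fourfold such that the group of Hodge classes in `H^4(X, ℤ)` has rank `3` and
contains a class `v` with `disc v = 2 a ^ 2`, `a ≠ 0`. Let `D` be the determinant of the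
intersection form on `h`, `v`, `w` for some Hodge class `w`, and `D ≠ 0`. If `D` is a square, or if
a prime number `l` with `l ≡ 3 mod 4` or `l ∤ 2 a` divides `D` to an odd power, then the variety of
lines `F(X)` is birational to `S^[2]` for a K3 surface `S` if and only if `X` has an associated K3
surface. -/
theorem result (X : CubicFourfold) (H : H4 X) (hH : H.IsCohomology) (hr : H.rank = 3)
    (v w : Fin 23 → ℤ) (hv : H.IsHodge v) (hw : H.IsHodge w) (a : ℤ) (ha : a ≠ 0)
    (hd : H.disc v = 2 * a ^ 2) (hD : gramDet H v w ≠ 0)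
    (hl : IsSquare (gramDet H v w) ∨ ∃ l : ℕ, l.Prime ∧ Odd (padicValInt l (gramDet H v w)) ∧
      (l % 4 = 3 ∨ ¬ (l : ℤ) ∣ 2 * a)) : HilbertSquare H ↔ H.HasK3 :=
  ⟨hasK3_of_hilbertSquare hH, hilbertSquare_of_three hH hr hv hw ha hd hD hl⟩

end Pool.Agent.Results.MP_4d0966_ag.HilbertSquaresRankThree
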