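import Pool.Agent.N801.CF.Rk3Ex

/-!
# Cubic fourfolds with a K3 surface whose varieties of lines are not Hilbert squares
-/

set_option autoImplicit false

namespace Pool.Agent.Results.MP_4d0966_ag.ReciprocityObstruction

open Pool.Agent.Y95.Q Pool.Agent.N801.CF

/-- **A reciprocity obstruction.** Let `l` be a prime number with `l ≡ 1 mod 12` such that `-3` is
not a fourth power modulo `l` (for instance `l = 13`). Let `X` be a smooth cubic fourfold whose
group of Hodge classes in `H^4(X, ℤ)` is generated by `h`, `v`, `w` with `v.h = 1`,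
`3 v.v = 2 l ^ 2 + 1`, `w.h = 0`, `v.w = 0`, `w.w = 2 l`. Then `disc v = 2 l ^ 2` (so `F(X)` has a
rational Lagrangian fibration), `X` has an associated K3 surface, but `F(X)` is not birational to
`S^[2]` for any K3 surface `S`. -/
theorem result (X : CubicFourfold) (H : H4 X) (hH : H.IsCohomology) (l : ℕ) (hl : l.Prime)
    (h12 : l % 12 = 1) (h4 : ∀ x : ZMod l, x ^ 4 ≠ -3) (v w : Fin 23 → ℤ)
    (hb : ∀ u, H.IsHodge u ↔ ∃ x y z : ℤ, u = x • H.h + y • v + z • w)
    (hvh : H.ip v H.h = 1) (hvv : 3 * H.ip v v = 2 * l ^ 2 + 1) (hwh : H.ip w H.h = 0)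
    (hvw : H.ip v w = 0) (hww : H.ip w w = 2 * l) :
    H.disc v = 2 * l ^ 2 ∧ H.HasK3 ∧ ¬ HilbertSquare H :=
  example_three hH hl h12 h4 hb hvh hvv hwh hvw hww

end Pool.Agent.Results.MP_4d0966_ag.ReciprocityObstruction
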